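import Pool.Agent.H435R3.HBK.Step
import Pool.Agent.H435R3.Paley.Inv

/-! # Sets with additive structure against sets with multiplicative structure -/

set_option autoImplicit false

namespace Pool.Agent.H435R3.HBK

open Finset Pool.Agent.H435R3.Paley

open scoped Pointwise Combinatorics.Additive

/-- number of representations as a difference of two elements of a coset -/
theorem rep_le {p : ℕ} [Fact p.Prime] (t : ℕ) (ht : 1 ≤ t) (htp : t ^ 4 < p ^ 3)
    (S : Finset (ZMod p)) (γ : ZMod p) (hγ : γ ≠ 0) (hS : ∀ b ∈ S, b ^ t = γ) (x : ZMod p)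
    (hx : x ≠ 0) :
    (((S ×ˢ S).filter fun w => w.1 - w.2 = x).card : ℝ) ≤ 7 * (t : ℝ) ^ (2 / 3 : ℝ) := by
  classical
  have h1 : ((S ×ˢ S).filter fun w => w.1 - w.2 = x).card ≤
      (univ.filter fun u : ZMod p => u ^ t = γ / x ^ t ∧ (u - 1) ^ t = γ / x ^ t).card := by
    refine card_le_card_of_injOn (fun w => w.1 / x) ?_ ?_
    · intro w hw
      rw [mem_coe, mem_filter, mem_product] at hw
      rw [mem_coe, mem_filter]
      refine ⟨mem_univ _, ?_, ?_⟩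
      · simp only
        rw [div_pow, hS _ hw.1.1]
      · have h2 : w.1 / x - 1 = w.2 / x := by
          have h3 : w.1 = w.2 + x := by rw [← hw.2]; ring
          rw [h3, add_div, div_self hx, add_sub_cancel_right]
        simp only
        rw [h2, div_pow, hS _ hw.1.2]
    · intro w hw w' hw' h2
      rw [mem_coe, mem_filter, mem_product] at hw hw'
      have h3 : w.1 = w'.1 := by
        have h4 := congrArg (fun y => y * x) h2
        simpa [div_mul_cancel₀ _ hx] using h4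
      refine Prod.ext h3 ?_
      have e1 : w.2 = w.1 - x := by rw [← hw.2]; ring
      have e2 : w'.2 = w'.1 - x := by rw [← hw'.2]; ring
      rw [e1, e2, h3]
  have h0 : γ / x ^ t ≠ 0 := div_ne_zero hγ (pow_ne_zero _ hx)
  have h2 := hbk (p := p) t ht htp _ _ h0 h0
    (univ.filter fun u : ZMod p => u ^ t = γ / x ^ t ∧ (u - 1) ^ t = γ / x ^ t)
    (fun u hu => (mem_filter.1 hu).2)
  have h3 := (Nat.pow_le_pow_left h1 3).trans h2
  have h4 : (((S ×ˢ S).filter fun w => w.1 - w.2 = x).card : ℝ) ^ 3 ≤ 308 * (t : ℝ) ^ 2 := by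
    exact_mod_cast h3
  have h5 : (7 * (t : ℝ) ^ (2 / 3 : ℝ)) ^ 3 = 343 * (t : ℝ) ^ 2 := by
    rw [mul_pow, ← Real.rpow_natCast ((t : ℝ) ^ (2 / 3 : ℝ)) 3, ← Real.rpow_mul (Nat.cast_nonneg t)]
    norm_num
  refine (pow_le_pow_iff_left₀ (Nat.cast_nonneg _) (by positivity) (by norm_num : (3 : ℕ) ≠ 0)).1 ?_
  rw [h5]
  refine h4.trans ?_
  have : (0 : ℝ) ≤ (t : ℝ) ^ 2 := by positivity
  linarith

theorem energy_coset {p : ℕ} [Fact p.Prime] (S C : Finset (ZMod p)) (R : ℝ) (hR0 : 0 ≤ R)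
    (hR : ∀ x : ZMod p, x ≠ 0 → (((S ×ˢ S).filter fun w => w.1 - w.2 = x).card : ℝ) ≤ R) :
    (E[S, C] : ℝ) ≤ S.card * C.card + (C.card : ℝ) ^ 2 * R := by
  classical
  unfold Finset.addEnergy
  rw [Finset.card_eq_sum_card_fiberwise
    (f := fun w : (ZMod p × ZMod p) × (ZMod p × ZMod p) => w.2) (t := C ×ˢ C)
    (fun w hw => by
      have := mem_coe.1 hw
      rw [mem_filter, mem_product] at this
      exact this.1.2)]
  push_cast
  have h1 : ∀ c ∈ C ×ˢ C, (((((S ×ˢ S) ×ˢ C ×ˢ C).filter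
      fun x => x.1.1 + x.2.1 = x.1.2 + x.2.2).filter fun w => w.2 = c).card : ℝ) ≤
      (if c.1 = c.2 then (S.card : ℝ) else 0) + R := by
    intro c hc
    have h2 : ((((S ×ˢ S) ×ˢ C ×ˢ C).filter
      fun x => x.1.1 + x.2.1 = x.1.2 + x.2.2).filter fun w => w.2 = c).card ≤
        ((S ×ˢ S).filter fun w => w.1 - w.2 = c.2 - c.1).card := by
      refine card_le_card_of_injOn (fun w => w.1) ?_ ?_
      · intro w hw
        rw [mem_coe, mem_filter, mem_filter, mem_product] at hw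
        rw [mem_coe, mem_filter]
        refine ⟨hw.1.1.1, ?_⟩
        have h3 := hw.1.2
        rw [hw.2] at h3
        linear_combination h3
      · intro w hw w' hw' h2
        rw [mem_coe, mem_filter] at hw hw'
        exact Prod.ext h2 (hw.2.trans hw'.2.symm)
    split_ifs with h
    · have h3 : ((S ×ˢ S).filter fun w => w.1 - w.2 = c.2 - c.1).card ≤ S.card := by
        refine card_le_card_of_injOn (fun w => w.1) ?_ ?_
        · intro w hw
          rw [mem_coe, mem_filter, mem_product] at hw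
          exact hw.1.1
        · intro w hw w' hw' h2
          rw [mem_coe, mem_filter, h, sub_self, sub_eq_zero] at hw hw'
          exact Prod.ext h2 (by rw [← hw.2, ← hw'.2]; exact h2)
      have h4 : (((((S ×ˢ S) ×ˢ C ×ˢ C).filter
        fun x => x.1.1 + x.2.1 = x.1.2 + x.2.2).filter fun w => w.2 = c).card : ℝ) ≤ S.card := by
        exact_mod_cast h2.trans h3
      linarith
    · rw [zero_add]
      refine le_trans ?_ (hR (c.2 - c.1) (sub_ne_zero.2 (Ne.symm h)))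
      exact_mod_cast h2
  refine (sum_le_sum h1).trans ?_
  rw [sum_add_distrib, sum_const, card_product, nsmul_eq_mul, sum_product]
  have h2 : ∑ x ∈ C, ∑ y ∈ C, (if x = y then (S.card : ℝ) else 0) = S.card * C.card := by
    rw [sum_congr rfl fun x hx => by rw [sum_ite_eq, if_pos hx], sum_const, nsmul_eq_mul, mul_comm]
  simp only
  rw [h2]
  push_cast
  refine le_of_eq ?_
  ring

theorem coset_bound {p : ℕ} [Fact p.Prime] (S A C : Finset (ZMod p)) (hSA : S ⊆ A) (R : ℝ)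
    (hC : C.Nonempty) (hR0 : 0 ≤ R)
    (hR : ∀ x : ZMod p, x ≠ 0 → (((S ×ˢ S).filter fun w => w.1 - w.2 = x).card : ℝ) ≤ R) :
    (S.card : ℝ) ^ 2 * C.card ≤ (A + C).card * (S.card + C.card * R) := by
  classical
  have h1 := le_card_add_mul_addEnergy S C
  have h2 : ((S.card : ℝ) ^ 2 * (C.card : ℝ) ^ 2) ≤ (S + C).card * E[S, C] := by exact_mod_cast h1
  have h3 : ((S + C).card : ℝ) ≤ (A + C).card := by
    exact_mod_cast card_le_card (add_subset_add_right hSA)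
  have h4 := energy_coset S C R hR0 hR
  have hCpos : (0 : ℝ) < C.card := by exact_mod_cast hC.card_pos
  have h5 : (C.card : ℝ) * ((S.card : ℝ) ^ 2 * C.card) ≤
      C.card * ((A + C).card * (S.card + C.card * R)) := by
    calc (C.card : ℝ) * ((S.card : ℝ) ^ 2 * C.card) = (S.card : ℝ) ^ 2 * (C.card : ℝ) ^ 2 := by ring
      _ ≤ ((S + C).card : ℝ) * (E[S, C] : ℝ) := h2
      _ ≤ ((A + C).card : ℝ) * (E[S, C] : ℝ) := mul_le_mul_of_nonneg_right h3 (Nat.cast_nonneg _)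
      _ ≤ ((A + C).card : ℝ) * (S.card * C.card + (C.card : ℝ) ^ 2 * R) :=
          mul_le_mul_of_nonneg_left h4 (Nat.cast_nonneg _)
      _ = _ := by ring
  exact le_of_mul_le_mul_left h5 hCpos

/-- the arithmetic of the two cases -/
theorem arith (k X c P Q a τ R : ℝ) (hk : 0 < k) (hc : 0 < c) (hP : 0 < P) (hQ8 : 8 ≤ Q)
    (hX0 : 0 ≤ X) (ha : 0 < a) (hτ : 0 < τ) (hR : R = 7 * τ ^ (2 / 3 : ℝ))
    (hb : k ^ 2 * c ≤ X * (k + c * R)) (h1 : X * (P * Q ^ 3) ≤ a * c * τ)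
    (h2 : X * (P ^ 2 * Q ^ 2) ≤ a ^ 2 * τ ^ (4 / 3 : ℝ)) (hkP : a * τ < 2 * (k * P)) : False := by
  have hQpos : 0 < Q := by linarith
  have hkPpos : 0 < k * P := mul_pos hk hP
  rcases le_total (c * R) k with hcase | hcase
  · have e1 : k * (k * c) ≤ k * (2 * X) := by
      have e0 : X * (k + c * R) ≤ X * (k + k) :=
        mul_le_mul_of_nonneg_left (by linarith) hX0
      calc k * (k * c) = k ^ 2 * c := by ring
        _ ≤ X * (k + k) := hb.trans e0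
        _ = _ := by ring
    have e2 : k * c ≤ 2 * X := le_of_mul_le_mul_left e1 hk
    have e3 : k * c * (P * Q ^ 3) ≤ 2 * (a * c * τ) := by
      calc k * c * (P * Q ^ 3) ≤ 2 * X * (P * Q ^ 3) :=
            mul_le_mul_of_nonneg_right e2 (by positivity)
        _ = 2 * (X * (P * Q ^ 3)) := by ring
        _ ≤ _ := by linarith
    have e4 : c * (k * P * Q ^ 3) ≤ c * (2 * (a * τ)) := by
      calc c * (k * P * Q ^ 3) = k * c * (P * Q ^ 3) := by ring
        _ ≤ _ := e3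
        _ = _ := by ring
    have e5 : k * P * Q ^ 3 ≤ 2 * (a * τ) := le_of_mul_le_mul_left e4 hc
    have e6 : (8 : ℝ) ≤ Q ^ 3 := by
      calc (8 : ℝ) ≤ 8 ^ 3 := by norm_num
        _ ≤ Q ^ 3 := pow_le_pow_left₀ (by norm_num) hQ8 3
    have e7 := mul_le_mul_of_nonneg_left e6 hkPpos.le
    linarith
  · have e1 : k ^ 2 * c ≤ 2 * X * R * c := by
      have e0 : X * (k + c * R) ≤ X * (c * R + c * R) :=
        mul_le_mul_of_nonneg_left (by linarith) hX0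
      calc k ^ 2 * c ≤ X * (c * R + c * R) := hb.trans e0
        _ = _ := by ring
    have e2 : k ^ 2 ≤ 2 * X * R := le_of_mul_le_mul_right e1 hc
    have e3 : τ ^ (4 / 3 : ℝ) * τ ^ (2 / 3 : ℝ) = τ ^ 2 := by
      rw [← Real.rpow_add hτ]
      norm_num
    have hτ23 : 0 < τ ^ (2 / 3 : ℝ) := by positivity
    have e4 : k ^ 2 * (P ^ 2 * Q ^ 2) ≤ 14 * (a ^ 2 * τ ^ 2) := by
      calc k ^ 2 * (P ^ 2 * Q ^ 2) ≤ 2 * X * R * (P ^ 2 * Q ^ 2) :=
            mul_le_mul_of_nonneg_right e2 (by positivity)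
        _ = 14 * τ ^ (2 / 3 : ℝ) * (X * (P ^ 2 * Q ^ 2)) := by rw [hR]; ring
        _ ≤ 14 * τ ^ (2 / 3 : ℝ) * (a ^ 2 * τ ^ (4 / 3 : ℝ)) :=
            mul_le_mul_of_nonneg_left h2 (by positivity)
        _ = 14 * (a ^ 2 * (τ ^ (4 / 3 : ℝ) * τ ^ (2 / 3 : ℝ))) := by ring
        _ = _ := by rw [e3]
    have e5 : (a * τ) ^ 2 < (2 * (k * P)) ^ 2 :=
      pow_lt_pow_left₀ hkP (by positivity) two_ne_zero
    have e6 : (64 : ℝ) ≤ Q ^ 2 := by
      calc (64 : ℝ) = 8 ^ 2 := by norm_num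
        _ ≤ Q ^ 2 := pow_le_pow_left₀ (by norm_num) hQ8 2
    have e7 : 0 < (k * P) ^ 2 := by positivity
    have e8 := mul_le_mul_of_nonneg_left e6 e7.le
    have e9 : k ^ 2 * (P ^ 2 * Q ^ 2) = (k * P) ^ 2 * Q ^ 2 := by ring
    have e10 : (a * τ) ^ 2 = a ^ 2 * τ ^ 2 := by ring
    have e11 : (2 * (k * P)) ^ 2 = 4 * (k * P) ^ 2 := by ring
    linarith

open Classical in
/-- sets `B` invariant under `H`, sets `A` with few sums `A + C` -/
theorem mixed (ε : ℝ) (hε : 0 < ε) : ∃ δ : ℝ, 0 < δ ∧ ∀ K : ℕ → ℝ, (∀ r, 0 ≤ K r) →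
    ∃ p₀ : ℕ, ∀ (p : ℕ) [Fact p.Prime], p₀ ≤ p → ∀ χ : DirichletCharacter ℂ p, Good p χ K →
    ∀ (H : Subgroup (ZMod p)ˣ) (A B C : Finset (ZMod p)), Nat.card H ^ 4 < p ^ 3 →
      (∀ h ∈ H, ∀ b ∈ B, (h : ZMod p) * b ∈ B) → C.Nonempty → (p : ℝ) ^ ε ≤ B.card →
      ((A + C).card : ℝ) * (p : ℝ) ^ (1 / 2 + ε) ≤ A.card * C.card * Nat.card H →
      ((A + C).card : ℝ) * (p : ℝ) ^ (1 + ε) ≤
        (A.card : ℝ) ^ 2 * (Nat.card H : ℝ) ^ (4 / 3 : ℝ) →
      ‖∑ a ∈ A, ∑ b ∈ B, χ (a + b)‖ ≤ (p : ℝ) ^ (-δ) * (A.card * B.card) := by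
  obtain ⟨δ₁, hδ₁, h⟩ := invariant (ε / 4) (by positivity)
  obtain ⟨δ, hδ⟩ : ∃ δ : ℝ, δ = min δ₁ ε / 2 := ⟨_, rfl⟩
  have hδ0 : 0 < δ := by
    rw [hδ]
    have := lt_min hδ₁ hε
    linarith
  have hδa : 2 * δ ≤ δ₁ := by rw [hδ]; have := min_le_left δ₁ ε; linarith
  have hδb : 2 * δ ≤ ε := by rw [hδ]; have := min_le_right δ₁ ε; linarith
  refine ⟨δ, hδ0, fun K hK => ?_⟩
  obtain ⟨p₁, hp₁⟩ := h K hK
  obtain ⟨p₂, -, hp₂⟩ := exists_large 2 δ hδ0
  obtain ⟨p₃, -, hp₃⟩ := exists_large 8 (ε / 4) (by positivity)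
  refine ⟨max p₁ (max p₂ p₃), fun p _ hp χ hχ H A B C hH hinv hC hB h1' h2' => ?_⟩
  have hpa : p₁ ≤ p := (le_max_left _ _).trans hp
  have hpb : p₂ ≤ p := ((le_max_left _ _).trans (le_max_right _ _)).trans hp
  have hpc : p₃ ≤ p := ((le_max_right _ _).trans (le_max_right _ _)).trans hp
  have hpp : p.Prime := Fact.out
  have hp0 : (0 : ℝ) < p := by exact_mod_cast hpp.pos
  have hp1 : (1 : ℝ) ≤ p := by exact_mod_cast hpp.one_le
  have hl2 := hp₂ p hpb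
  have hl8 := hp₃ p hpc
  rcases A.eq_empty_or_nonempty with rfl | hAne
  · simp
  have hApos : (0 : ℝ) < A.card := by exact_mod_cast hAne.card_pos
  have hCpos : (0 : ℝ) < C.card := by exact_mod_cast hC.card_pos
  set t := Nat.card H with ht
  have ht1 : 1 ≤ t := Nat.card_pos
  have htpos : (0 : ℝ) < t := by exact_mod_cast ht1
  -- `p ^ ε ≤ |A|`
  have hAC : (A.card : ℝ) ≤ (A + C).card := by
    exact_mod_cast card_le_card_add_right hC
  have ht43 : (t : ℝ) ^ (4 / 3 : ℝ) ≤ p := by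
    have e1 : (t : ℝ) ^ (4 / 3 : ℝ) = ((t : ℝ) ^ 4) ^ (1 / 3 : ℝ) := by
      rw [← Real.rpow_natCast (t : ℝ) 4, ← Real.rpow_mul htpos.le]
      norm_num
    have e2 : (p : ℝ) = ((p : ℝ) ^ 3) ^ (1 / 3 : ℝ) := by
      rw [← Real.rpow_natCast (p : ℝ) 3, ← Real.rpow_mul hp0.le]
      norm_num
    rw [e1, e2]
    refine Real.rpow_le_rpow (by positivity) ?_ (by norm_num)
    exact_mod_cast hH.le
  have hAε : (p : ℝ) ^ ε ≤ A.card := by
    have h3 : (A.card : ℝ) * ((p : ℝ) ^ ε * p) ≤ A.card * (A.card * p) := by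
      have e1 : (p : ℝ) ^ (1 + ε) = (p : ℝ) ^ ε * p := by
        rw [Real.rpow_add hp0, Real.rpow_one, mul_comm]
      calc (A.card : ℝ) * ((p : ℝ) ^ ε * p) = A.card * (p : ℝ) ^ (1 + ε) := by rw [e1]
        _ ≤ (A + C).card * (p : ℝ) ^ (1 + ε) := mul_le_mul_of_nonneg_right hAC (by positivity)
        _ ≤ (A.card : ℝ) ^ 2 * (t : ℝ) ^ (4 / 3 : ℝ) := h2'
        _ ≤ (A.card : ℝ) ^ 2 * p := mul_le_mul_of_nonneg_left ht43 (by positivity)
        _ = _ := by ring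
    have h4 := le_of_mul_le_mul_left h3 hApos
    exact le_of_mul_le_mul_right h4 hp0
  -- remove `0`
  set A' := A.erase 0 with hA'
  have hA'sub : A' ⊆ A := erase_subset _ _
  have hA'card : (A.card : ℝ) ≤ A'.card + 1 := by
    have h5 := Finset.pred_card_le_card_erase (s := A) (a := 0)
    rw [← hA'] at h5
    exact_mod_cast (by omega : A.card ≤ A'.card + 1)
  have hε4 : (p : ℝ) ^ (ε / 4) ≤ (p : ℝ) ^ ε := Real.rpow_le_rpow_of_exponent_le hp1 (by linarith)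
  have hA'half : (A.card : ℝ) ≤ 2 * A'.card := by linarith
  -- the bound for the orbits
  obtain ⟨P, hP⟩ : ∃ P : ℝ, P = (p : ℝ) ^ (1 / 2 + ε / 4) := ⟨_, rfl⟩
  obtain ⟨Q, hQ⟩ : ∃ Q : ℝ, Q = (p : ℝ) ^ (ε / 4) := ⟨_, rfl⟩
  have hPpos : 0 < P := by rw [hP]; positivity
  have hQpos : 0 < Q := by rw [hQ]; positivity
  have hQ8 : 8 ≤ Q := by rw [hQ]; exact hl8
  have hPQ3 : (p : ℝ) ^ (1 / 2 + ε) = P * Q ^ 3 := by
    rw [hP, hQ, ← Real.rpow_natCast ((p : ℝ) ^ (ε / 4)) 3, ← Real.rpow_mul hp0.le,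
      ← Real.rpow_add hp0]
    congr 1
    push_cast
    ring
  have hPQ2 : (p : ℝ) ^ (1 + ε) = P ^ 2 * Q ^ 2 := by
    rw [hP, hQ, ← Real.rpow_natCast ((p : ℝ) ^ (1 / 2 + ε / 4)) 2,
      ← Real.rpow_natCast ((p : ℝ) ^ (ε / 4)) 2, ← Real.rpow_mul hp0.le, ← Real.rpow_mul hp0.le,
      ← Real.rpow_add hp0]
    congr 1
    push_cast
    ring
  rw [hPQ3] at h1'
  rw [hPQ2] at h2'
  obtain ⟨M, hM⟩ : ∃ M : ℝ, M = A'.card * t / P := ⟨_, rfl⟩
  have hM0 : 0 ≤ M := by rw [hM]; positivity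
  have hMP : M * P = A'.card * t := by rw [hM]; field_simp
  have hcount : ∀ a ∈ A', ((univ.filter fun h : (ZMod p)ˣ => h ∈ H ∧
      (h : ZMod p) * a ∈ A').card : ℝ) ≤ M := by
    intro a ha
    have ha0 : a ≠ 0 := (mem_erase.1 ha).1
    set S := (univ.filter fun h : (ZMod p)ˣ => h ∈ H ∧ (h : ZMod p) * a ∈ A').image
      (fun h : (ZMod p)ˣ => (h : ZMod p) * a) with hS
    have hScard : S.card = (univ.filter fun h : (ZMod p)ˣ => h ∈ H ∧
        (h : ZMod p) * a ∈ A').card := by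
      rw [hS, card_image_of_injective]
      intro h h' hh
      exact Units.val_injective (mul_right_cancel₀ ha0 hh)
    have hSA : S ⊆ A := by
      intro x hx
      rw [hS, mem_image] at hx
      obtain ⟨h, hh, rfl⟩ := hx
      exact hA'sub (mem_filter.1 hh).2.2
    have hSt : ∀ b ∈ S, b ^ t = a ^ t := by
      intro x hx
      rw [hS, mem_image] at hx
      obtain ⟨h, hh, rfl⟩ := hx
      have h5 : h ^ t = 1 := by
        have h6 : (⟨h, (mem_filter.1 hh).2.1⟩ : H) ^ Nat.card H = 1 := pow_card_eq_one'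
        have h7 : ((⟨h, (mem_filter.1 hh).2.1⟩ : H) : (ZMod p)ˣ) ^ t = 1 := by
          rw [ht, ← Subgroup.coe_pow, h6, Subgroup.coe_one]
        exact h7
      rw [mul_pow, ← Units.val_pow_eq_pow_val, h5, Units.val_one, one_mul]
    have hrep := rep_le t ht1 hH S (a ^ t) (pow_ne_zero _ ha0) hSt
    obtain ⟨R, hR⟩ : ∃ R : ℝ, R = 7 * (t : ℝ) ^ (2 / 3 : ℝ) := ⟨_, rfl⟩
    have hR0 : 0 ≤ R := by rw [hR]; positivity
    rw [← hR] at hrep
    have hb := coset_bound S A C hSA R hC hR0 hrep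
    rw [← hScard]
    by_contra hcon
    push Not at hcon
    have hk : 0 < (S.card : ℝ) := lt_of_le_of_lt hM0 hcon
    obtain ⟨k, hkdef⟩ : ∃ k : ℝ, k = S.card := ⟨_, rfl⟩
    obtain ⟨X, hXdef⟩ : ∃ X : ℝ, X = (A + C).card := ⟨_, rfl⟩
    obtain ⟨c, hcdef⟩ : ∃ c : ℝ, c = C.card := ⟨_, rfl⟩
    obtain ⟨a₀, ha₀⟩ : ∃ a₀ : ℝ, a₀ = A.card := ⟨_, rfl⟩
    obtain ⟨a₁, ha₁⟩ : ∃ a₁ : ℝ, a₁ = A'.card := ⟨_, rfl⟩
    obtain ⟨τ, hτ⟩ : ∃ τ : ℝ, τ = t := ⟨_, rfl⟩
    rw [← hkdef] at hk hcon hb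
    rw [← hXdef] at hb h1' h2'
    rw [← hcdef] at hb h1' hCpos
    rw [← ha₀] at h1' h2' hA'half hApos
    rw [← ha₁] at hMP hA'half
    rw [← hτ] at hMP h1' h2' htpos hR
    have hX0 : 0 ≤ X := by rw [hXdef]; exact Nat.cast_nonneg _
    have ha1pos : 0 < a₁ := by linarith
    -- `k P > a₁ τ`
    have hkP : a₁ * τ < k * P := by
      rw [← hMP]
      exact mul_lt_mul_of_pos_right hcon hPpos
    have hkP2 : a₀ * τ < 2 * (k * P) := by nlinarith
    exact arith k X c P Q a₀ τ R hk hCpos hPpos hQ8 hX0 hApos htpos hR hb h1' h2' hkP2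
  have hmain := hp₁ p hpa χ hχ H A' B ⌊M⌋₊ hinv (fun a ha => by
      have h3 := hcount a ha
      exact Nat.le_floor h3)
    ((Real.rpow_le_rpow_of_exponent_le hp1 (by linarith)).trans hB) (by
      rw [← hP]
      calc (⌊M⌋₊ : ℝ) * P ≤ M * P := mul_le_mul_of_nonneg_right (Nat.floor_le hM0) hPpos.le
        _ = _ := hMP)
  have hsum : ‖∑ a ∈ A, ∑ b ∈ B, χ (a + b)‖ ≤ ‖∑ a ∈ A', ∑ b ∈ B, χ (a + b)‖ + B.card := by
    by_cases h0 : (0 : ZMod p) ∈ A
    · rw [← Finset.sum_erase_add A _ h0]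
      refine (norm_add_le _ _).trans ?_
      refine add_le_add le_rfl ?_
      refine (norm_sum_le _ _).trans ?_
      calc ∑ b ∈ B, ‖χ (0 + b)‖ ≤ ∑ _b ∈ B, (1 : ℝ) := sum_le_sum fun b _ => χ.norm_le_one _
        _ = B.card := by simp
    · have : A' = A := erase_eq_of_notMem h0
      rw [this]
      have : (0 : ℝ) ≤ B.card := Nat.cast_nonneg _
      linarith
  have hBc : (0 : ℝ) ≤ B.card := Nat.cast_nonneg _
  have h3 : (p : ℝ) ^ (-δ₁) * (A'.card * B.card) ≤ (p : ℝ) ^ (-(2 * δ)) * (A.card * B.card) := by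
    refine mul_le_mul (Real.rpow_le_rpow_of_exponent_le hp1 (by linarith)) ?_ (by positivity)
      (by positivity)
    refine mul_le_mul_of_nonneg_right ?_ hBc
    exact_mod_cast card_le_card hA'sub
  have h4 : (B.card : ℝ) ≤ (p : ℝ) ^ (-(2 * δ)) * (A.card * B.card) := by
    have e1 : 1 ≤ (p : ℝ) ^ (-(2 * δ)) * A.card := by
      have e2 : (p : ℝ) ^ (2 * δ) ≤ A.card :=
        (Real.rpow_le_rpow_of_exponent_le hp1 hδb).trans hAε
      rw [Real.rpow_neg hp0.le, ← div_eq_inv_mul, one_le_div (by positivity)]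
      exact e2
    calc (B.card : ℝ) = 1 * B.card := (one_mul _).symm
      _ ≤ ((p : ℝ) ^ (-(2 * δ)) * A.card) * B.card := mul_le_mul_of_nonneg_right e1 hBc
      _ = _ := by ring
  have h9 : 2 * (p : ℝ) ^ (-(2 * δ)) ≤ (p : ℝ) ^ (-δ) := by
    have e1 : (p : ℝ) ^ (-(2 * δ)) = (p : ℝ) ^ (-δ) * (p : ℝ) ^ (-δ) := by
      rw [← Real.rpow_add hp0]
      congr 1
      ring
    have e2 : 2 * (p : ℝ) ^ (-δ) ≤ 1 := by
      rw [Real.rpow_neg hp0.le, mul_inv_le_iff₀ (by positivity), one_mul]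
      exact hl2
    have e3 : 0 ≤ (p : ℝ) ^ (-δ) := by positivity
    rw [e1]
    nlinarith
  have hAB : (0 : ℝ) ≤ (A.card : ℝ) * B.card := by positivity
  have h10 := mul_le_mul_of_nonneg_right h9 hAB
  linarith

end Pool.Agent.H435R3.HBK
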