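import Mathlib

/-! # Sparse polynomials and the non-vanishing lemma -/

set_option autoImplicit false

namespace Pool.Agent.H435R3.HBK

open Polynomial Finset

variable {p : ℕ} [Fact p.Prime]

theorem cast_inj_of_lt {i j : ℕ} (hi : i < p) (hj : j < p) (h : (i : ZMod p) = j) : i = j := by
  have := congrArg ZMod.val h
  rwa [ZMod.val_natCast_of_lt hi, ZMod.val_natCast_of_lt hj] at this

/-- a polynomial with at most `n` monomials and degree `< p` is not divisible by
`(X - y) ^ n`, `y ≠ 0` -/
theorem sparse (y : ZMod p) (hy : y ≠ 0) (n : ℕ) : ∀ G : (ZMod p)[X], G.support.card ≤ n →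
    G.natDegree < p → (X - C y) ^ n ∣ G → G = 0 := by
  induction n with
  | zero =>
    intro G hc _ _
    rw [← support_eq_empty, ← Finset.card_eq_zero]
    omega
  | succ n ih =>
    intro G hc hd hdvd
    by_contra hG
    obtain ⟨e, he⟩ : G.support.Nonempty := by
      rw [Finset.nonempty_iff_ne_empty, ne_eq, support_eq_empty]
      exact hG
    have hlt : ∀ i ∈ G.support, i < p := fun i hi =>
      lt_of_le_of_lt (le_natDegree_of_mem_supp i hi) hd
    set G1 : (ZMod p)[X] := X * derivative G - C (e : ZMod p) * G with hG1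
    have hcoeff : ∀ i, G1.coeff i = ((i : ZMod p) - e) * G.coeff i := by
      intro i
      rw [hG1, coeff_sub, coeff_C_mul]
      rcases i with _ | i
      · simp
      · rw [coeff_X_mul, coeff_derivative]
        push_cast
        ring
    have hsub : G1.support ⊆ G.support.erase e := by
      intro i hi
      rw [mem_support_iff, hcoeff] at hi
      rw [Finset.mem_erase, mem_support_iff]
      refine ⟨?_, ?_⟩
      · rintro rfl
        simp at hi
      · exact right_ne_zero_of_mul hi
    have hc1 : G1.support.card ≤ n := by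
      have h1 := card_le_card hsub
      rw [card_erase_of_mem he] at h1
      omega
    have hd1 : G1.natDegree < p := by
      refine lt_of_le_of_lt ?_ hd
      rw [natDegree_le_iff_coeff_eq_zero]
      intro i hi
      rw [hcoeff, coeff_eq_zero_of_natDegree_lt hi, mul_zero]
    have hdvd1 : (X - C y) ^ n ∣ G1 := by
      obtain ⟨W, hW⟩ := hdvd
      rw [hG1]
      refine dvd_sub (Dvd.dvd.mul_left ?_ _) (Dvd.dvd.mul_left ?_ _)
      · rw [hW, derivative_mul, derivative_X_sub_C_pow]
        refine dvd_add ?_ ?_
        · rw [Nat.add_sub_cancel]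
          exact Dvd.dvd.mul_right (Dvd.dvd.mul_left (dvd_refl _) _) _
        · rw [pow_succ]
          exact Dvd.dvd.mul_right (Dvd.intro _ rfl) _
      · rw [hW, pow_succ, mul_assoc]
        exact Dvd.intro _ rfl
    have h0 := ih G1 hc1 hd1 hdvd1
    have hsupp : ∀ i ∈ G.support, i = e := by
      intro i hi
      have h1 := hcoeff i
      rw [h0, coeff_zero] at h1
      rcases mul_eq_zero.1 h1.symm with h2 | h2
      · exact cast_inj_of_lt (hlt i hi) (hlt e he) (sub_eq_zero.1 h2)
      · exact absurd h2 (mem_support_iff.1 hi)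
    have hGe : G = C (G.coeff e) * X ^ e := by
      ext i
      rw [coeff_C_mul_X_pow]
      split_ifs with h
      · rw [h]
      · by_contra h1
        exact h (hsupp i (mem_support_iff.2 h1))
    have hroot : G.eval y = 0 := by
      have h1 : (X - C y) ∣ G := (dvd_pow_self _ (by omega)).trans hdvd
      exact dvd_iff_isRoot.1 h1
    rw [hGe, eval_mul, eval_C, eval_pow, eval_X] at hroot
    rcases mul_eq_zero.1 hroot with h1 | h1
    · exact mem_support_iff.1 he h1
    · exact pow_ne_zero e hy h1

/-- independence of the powers `X ^ (t c)` over polynomials of degree `< t` -/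
theorem indep_pow (A t B : ℕ) (hA : A ≤ t) (g : ℕ → (ZMod p)[X])
    (hg : ∀ c, (g c).degree < A) (h : ∑ c ∈ range B, g c * X ^ (t * c) = 0) :
    ∀ c < B, g c = 0 := by
  intro c hc
  ext i
  rw [coeff_zero]
  by_cases hi : i < A
  · have h1 := congrArg (fun q => q.coeff (t * c + i)) h
    simp only [finsetSum_coeff, coeff_zero] at h1
    rw [Finset.sum_eq_single c] at h1
    · rwa [coeff_mul_X_pow', if_pos (by omega), Nat.add_sub_cancel_left] at h1
    · intro b _ hbc
      rw [coeff_mul_X_pow']
      split_ifs with hle
      · apply coeff_eq_zero_of_degree_lt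
        refine (hg b).trans_le ?_
        rcases lt_or_gt_of_ne hbc with h2 | h2
        · have h3 : t * b + t ≤ t * c := by
            rw [← Nat.mul_succ]
            exact Nat.mul_le_mul_left t h2
          exact_mod_cast (by omega : A ≤ t * c + i - t * b)
        · exfalso
          have h3 : t * c + t ≤ t * b := by
            rw [← Nat.mul_succ]
            exact Nat.mul_le_mul_left t h2
          omega
      · rfl
    · intro h2
      exact absurd (mem_range.2 hc) h2
  · apply coeff_eq_zero_of_degree_lt
    refine (hg c).trans_le ?_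
    exact_mod_cast (by omega : A ≤ i)

/-- the polynomial of Stepanov's method -/
noncomputable def Psi (t B : ℕ) (g : ℕ → ℕ → (ZMod p)[X]) : (ZMod p)[X] :=
  ∑ b ∈ range B, ∑ c ∈ range B, X ^ (t * b) * ((X - 1) ^ (t * c) * g b c)

theorem nonvan (t A B : ℕ) (hA : 1 ≤ A) (hAt : A ≤ t) (hAB : A * B ≤ t) (hp : A + t * (B - 1) < p)
    (g : ℕ → ℕ → (ZMod p)[X]) (hg : ∀ b c, (g b c).degree < A) (hΨ : Psi t B g = 0) :
    ∀ b < B, ∀ c < B, g b c = 0 := by
  intro b
  induction b using Nat.strong_induction_on with
  | _ b ih =>
  intro hb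
  -- the terms with smaller `b` vanish
  set G : ℕ → (ZMod p)[X] := fun b => ∑ c ∈ range B, (X - 1) ^ (t * c) * g b c with hG
  have hΨ' : ∑ b ∈ range B, X ^ (t * b) * G b = 0 := by
    rw [← hΨ]
    unfold Psi
    refine sum_congr rfl fun b _ => ?_
    rw [hG, mul_sum]
  have hdvd : (X : (ZMod p)[X]) ^ t ∣ G b := by
    have h1 : ∑ b' ∈ range B, X ^ (t * b') * G b' =
        X ^ (t * b) * G b + ∑ b' ∈ (range B).erase b, X ^ (t * b') * G b' :=
      (add_sum_erase _ _ (mem_range.2 hb)).symm
    have h2 : X ^ (t * b + t) ∣ ∑ b' ∈ (range B).erase b, X ^ (t * b') * G b' := by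
      refine dvd_sum fun b' hb' => ?_
      rw [mem_erase, mem_range] at hb'
      rcases lt_or_gt_of_ne hb'.1 with h3 | h3
      · have h4 : G b' = 0 := by
          rw [hG]
          refine sum_eq_zero fun c hc => ?_
          rw [ih b' h3 hb'.2 c (mem_range.1 hc), mul_zero]
        rw [h4, mul_zero]
        exact dvd_zero _
      · refine Dvd.dvd.mul_right (pow_dvd_pow _ ?_) _
        rw [← Nat.mul_succ]
        exact Nat.mul_le_mul_left t h3
    rw [hΨ'] at h1
    have h3 : X ^ (t * b + t) ∣ X ^ (t * b) * G b := by
      have h4 : X ^ (t * b) * G b = - ∑ b' ∈ (range B).erase b, X ^ (t * b') * G b' := by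
        linear_combination -h1
      rw [h4]
      exact (dvd_neg).2 h2
    rw [pow_add] at h3
    exact (mul_dvd_mul_iff_left (pow_ne_zero _ X_ne_zero)).1 h3
  -- substitute `X + 1`
  set H : (ZMod p)[X] := (G b).comp (X + 1) with hH
  have hHeq : H = ∑ c ∈ range B, ((g b c).comp (X + 1)) * X ^ (t * c) := by
    rw [hH, hG, Polynomial.sum_comp]
    refine sum_congr rfl fun c _ => ?_
    rw [mul_comp, pow_comp, sub_comp, X_comp, one_comp]
    ring
  have hgc : ∀ c, ((g b c).comp (X + 1)).degree < A := by
    intro c
    by_cases h0 : g b c = 0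
    · rw [h0, zero_comp, degree_zero]
      exact WithBot.bot_lt_coe _
    · have h1 : ((g b c).comp (X + 1)).natDegree = (g b c).natDegree := by
        rw [natDegree_comp]
        have : (X + 1 : (ZMod p)[X]).natDegree = 1 := natDegree_X_add_C 1
        rw [this, mul_one]
      have h2 : (g b c).natDegree < A := by
        have := hg b c
        rw [degree_eq_natDegree h0] at this
        exact_mod_cast this
      refine lt_of_le_of_lt degree_le_natDegree ?_
      rw [h1]
      exact_mod_cast h2
  have hHsupp : H.support.card ≤ A * B := by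
    have h1 : H.support ⊆ (range B ×ˢ range A).image (fun w => t * w.1 + w.2) := by
      intro i hi
      rw [mem_support_iff, hHeq, finsetSum_coeff] at hi
      obtain ⟨c, hc, hc2⟩ := exists_ne_zero_of_sum_ne_zero hi
      rw [coeff_mul_X_pow'] at hc2
      split_ifs at hc2 with hle
      · rw [mem_image]
        refine ⟨(c, i - t * c), ?_, ?_⟩
        · rw [mem_product]
          refine ⟨hc, ?_⟩
          rw [mem_range]
          by_contra h2
          apply hc2
          apply coeff_eq_zero_of_degree_lt
          refine (hgc c).trans_le ?_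
          exact_mod_cast (by omega : A ≤ i - t * c)
        · change t * c + (i - t * c) = i
          omega
      · exact absurd rfl hc2
    refine (card_le_card h1).trans (card_image_le.trans ?_)
    rw [card_product, card_range, card_range, mul_comm]
  have hHdeg : H.natDegree < p := by
    rw [hHeq]
    refine lt_of_le_of_lt (natDegree_sum_le_of_forall_le (n := A + t * (B - 1)) _ _ ?_) hp
    intro c hc
    rw [mem_range] at hc
    refine natDegree_mul_le.trans ?_
    rw [natDegree_X_pow]
    have h1 : ((g b c).comp (X + 1)).natDegree ≤ A := by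
      apply natDegree_le_of_degree_le
      exact (hgc c).le
    have h2 : t * c ≤ t * (B - 1) := Nat.mul_le_mul_left t (by omega)
    omega
  have hHdvd : (X - C (-1 : ZMod p)) ^ (A * B) ∣ H := by
    have h1 : (X - C (-1 : ZMod p)) ^ t ∣ H := by
      obtain ⟨W, hW⟩ := hdvd
      rw [hH, hW, mul_comp, pow_comp, X_comp]
      have : (X - C (-1 : ZMod p) : (ZMod p)[X]) = X + 1 := by simp
      rw [this]
      exact Dvd.intro _ rfl
    exact (pow_dvd_pow _ hAB).trans h1
  have hH0 : H = 0 := sparse (-1) (neg_ne_zero.2 one_ne_zero) (A * B) H hHsupp hHdeg hHdvd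
  intro c hc
  have h1 := indep_pow A t B hAt (fun c => (g b c).comp (X + 1)) hgc (by rw [← hHeq]; exact hH0)
    c hc
  have h2 : (g b c) = ((g b c).comp (X + 1)).comp (X - 1) := by
    rw [comp_assoc]
    simp
  rw [h2]
  have h3 : (g b c).comp (X + 1) = 0 := h1
  rw [h3, zero_comp]

end Pool.Agent.H435R3.HBK
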