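import Pool.Agent.H435R3.HBK.Sparse

/-! # Stepanov's method for `u ^ t = α`, `(u - 1) ^ t = β` -/

set_option autoImplicit false

namespace Pool.Agent.H435R3.HBK

open Polynomial Finset

variable {p : ℕ} [Fact p.Prime]

/-- the polynomials `P_k` of the `k`-th derivative of `X ^ m (X - 1) ^ n h` -/
noncomputable def PP (m n : ℕ) : ℕ → (ZMod p)[X] →ₗ[ZMod p] (ZMod p)[X]
  | 0 => LinearMap.id
  | k + 1 =>
      (LinearMap.mulLeft (ZMod p) (C (m : ZMod p) * (X - 1) + C (n : ZMod p) * X -
        C (k : ZMod p) * (2 * X - 1))) ∘ₗ PP m n k +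
      (LinearMap.mulLeft (ZMod p) (X * (X - 1))) ∘ₗ derivative ∘ₗ PP m n k

theorem PP_zero (m n : ℕ) (h : (ZMod p)[X]) : PP m n 0 h = h := rfl

theorem PP_succ (m n k : ℕ) (h : (ZMod p)[X]) : PP m n (k + 1) h =
    (C (m : ZMod p) * (X - 1) + C (n : ZMod p) * X - C (k : ZMod p) * (2 * X - 1)) *
      PP m n k h + X * (X - 1) * derivative (PP m n k h) := rfl

theorem PP_deg (m n k : ℕ) (h : (ZMod p)[X]) : (PP m n k h).natDegree ≤ h.natDegree + k := by
  induction k with
  | zero => exact le_rfl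
  | succ k ih =>
    rw [PP_succ]
    have hX1 : (X - 1 : (ZMod p)[X]).natDegree ≤ 1 := by
      have : (X - 1 : (ZMod p)[X]) = X - C 1 := by simp
      rw [this]
      exact natDegree_X_sub_C_le 1
    have hX : (X : (ZMod p)[X]).natDegree ≤ 1 := natDegree_X_le
    have h2X : (2 * X - 1 : (ZMod p)[X]).natDegree ≤ 1 := by
      have : (2 * X - 1 : (ZMod p)[X]) = X + (X - 1) := by ring
      rw [this]
      exact natDegree_add_le_of_degree_le hX hX1
    have hC : ∀ (c : ZMod p) (q : (ZMod p)[X]), q.natDegree ≤ 1 → (C c * q).natDegree ≤ 1 :=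
      fun c q hq => (natDegree_C_mul_le c q).trans hq
    refine natDegree_add_le_of_degree_le ?_ ?_
    · refine natDegree_mul_le.trans ?_
      have h1 : (C (m : ZMod p) * (X - 1) + C (n : ZMod p) * X -
          C (k : ZMod p) * (2 * X - 1) : (ZMod p)[X]).natDegree ≤ 1 := by
        refine (natDegree_sub_le_of_le (natDegree_add_le_of_degree_le (hC _ _ hX1) (hC _ _ hX))
          (hC _ _ h2X))
      omega
    · by_cases h0 : (PP m n k h).natDegree = 0
      · obtain ⟨c, hc⟩ := natDegree_eq_zero.1 h0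
        rw [← hc, derivative_C, mul_zero, natDegree_zero]
        exact Nat.zero_le _
      · refine natDegree_mul_le.trans ?_
        have h1 : (X * (X - 1) : (ZMod p)[X]).natDegree ≤ 2 := natDegree_mul_le.trans (by omega)
        have h2 := natDegree_derivative_lt h0
        omega

theorem pow_deriv (W : (ZMod p)[X]) (k : ℕ) :
    W * derivative (W ^ k) = C (k : ZMod p) * W ^ k * derivative W := by
  rcases k with _ | k
  · simp
  · rw [derivative_pow, Nat.add_sub_cancel]
    ring

theorem PP_main (m n k : ℕ) (h : (ZMod p)[X]) :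
    (X * (X - 1)) ^ k * derivative^[k] (X ^ m * ((X - 1) ^ n * h)) =
      X ^ m * (X - 1) ^ n * PP m n k h := by
  induction k with
  | zero =>
    rw [PP_zero, pow_zero, one_mul, Function.iterate_zero, id_eq]
    ring
  | succ k ih =>
    rw [PP_succ, Function.iterate_succ_apply']
    set F := derivative^[k] (X ^ m * ((X - 1) ^ n * h)) with hF
    have h1 := congrArg derivative ih
    rw [derivative_mul, derivative_mul, derivative_mul] at h1
    have e1 := pow_deriv (p := p) (X * (X - 1)) k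
    have e2 := pow_deriv (p := p) X m
    have e3 := pow_deriv (p := p) (X - 1) n
    rw [derivative_mul, derivative_X, derivative_sub, derivative_X, derivative_one] at e1
    rw [derivative_X] at e2
    rw [derivative_sub, derivative_X, derivative_one] at e3
    have h2 := congrArg (fun q => X * (X - 1) * q) h1
    set P := PP m n k h with hP
    rw [pow_succ]
    generalize derivative ((X * (X - 1) : (ZMod p)[X]) ^ k) = d1 at *
    generalize derivative ((X : (ZMod p)[X]) ^ m) = d2 at *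
    generalize derivative ((X - 1 : (ZMod p)[X]) ^ n) = d3 at *
    generalize derivative F = F' at *
    generalize derivative P = P' at *
    linear_combination h2 - F * e1 + ((X - 1) ^ n * P * (X - 1)) * e2 + (X ^ m * X * P) * e3 -
      (C (k : ZMod p) * (2 * X - 1)) * ih

/-- linear algebra -/
theorem exists_g (A B D : ℕ) (hD : D * (A + D) < B * (B * A))
    (w : ℕ → ℕ → ZMod p) (Q : ℕ → ℕ → ℕ → (ZMod p)[X] →ₗ[ZMod p] (ZMod p)[X])
    (hQ : ∀ b c k h, (Q b c k h).natDegree ≤ h.natDegree + k) :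
    ∃ g : ℕ → ℕ → (ZMod p)[X], (∀ b c, (g b c).degree < A) ∧
      (∃ b, b < B ∧ ∃ c, c < B ∧ g b c ≠ 0) ∧
      ∀ k < D, ∑ b ∈ range B, ∑ c ∈ range B, C (w b c) * Q b c k (g b c) = 0 := by
  classical
  set poly : (Fin A → ZMod p) →ₗ[ZMod p] (ZMod p)[X] :=
    (degreeLT (ZMod p) A).subtype ∘ₗ (degreeLTEquiv (ZMod p) A).symm.toLinearMap with hpoly
  have hpdeg : ∀ v, (poly v).degree < A := fun v =>
    mem_degreeLT.1 ((degreeLTEquiv (ZMod p) A).symm v).2
  have hpinj : ∀ v, poly v = 0 → v = 0 := by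
    intro v hv
    have h1 : (degreeLTEquiv (ZMod p) A).symm v = 0 := Subtype.ext hv
    exact (LinearEquiv.map_eq_zero_iff _).1 h1
  set L : (Fin B → Fin B → Fin A → ZMod p) →ₗ[ZMod p] (Fin D → Fin (A + D) → ZMod p) :=
    LinearMap.pi fun k => LinearMap.pi fun i => ∑ b : Fin B, ∑ c : Fin B,
      w b c • (lcoeff (ZMod p) (i : ℕ) ∘ₗ Q b c k ∘ₗ poly ∘ₗ LinearMap.proj c ∘ₗ
        LinearMap.proj b) with hL
  have hrank : Module.finrank (ZMod p) (Fin D → Fin (A + D) → ZMod p) <
      Module.finrank (ZMod p) (Fin B → Fin B → Fin A → ZMod p) := by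
    simp only [Module.finrank_pi_fintype, Module.finrank_self, sum_const, card_univ,
      Fintype.card_fin, smul_eq_mul, mul_one]
    exact hD
  have hker := LinearMap.ker_ne_bot_of_finrank_lt (f := L) hrank
  obtain ⟨v, hv, hv0⟩ := (Submodule.ne_bot_iff _).1 hker
  rw [LinearMap.mem_ker] at hv
  set g : ℕ → ℕ → (ZMod p)[X] := fun b c =>
    if hb : b < B then if hc : c < B then poly (v ⟨b, hb⟩ ⟨c, hc⟩) else 0 else 0 with hg
  have hg1 : ∀ (b c : Fin B), g b c = poly (v b c) := by
    intro b c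
    rw [hg]
    simp only [dif_pos b.2, dif_pos c.2]
  have hgdeg : ∀ b c, (g b c).degree < A := by
    intro b c
    by_cases hb : b < B
    · by_cases hc : c < B
      · rw [hg1 ⟨b, hb⟩ ⟨c, hc⟩]
        exact hpdeg _
      · rw [hg]
        simp only [dif_pos hb, dif_neg hc, degree_zero]
        exact WithBot.bot_lt_coe _
    · rw [hg]
      simp only [dif_neg hb, degree_zero]
      exact WithBot.bot_lt_coe _
  refine ⟨g, hgdeg, ?_, ?_⟩
  · by_contra hcon
    push Not at hcon
    apply hv0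
    funext b c
    refine hpinj _ ?_
    rw [← hg1]
    exact hcon b b.2 c c.2
  · intro k hk
    ext i
    rw [coeff_zero, finsetSum_coeff, Finset.sum_range]
    have e1 : ∀ b : Fin B, (∑ c ∈ range B, C (w b c) * Q b c k (g b c)).coeff i =
        ∑ c : Fin B, w b c * (Q b c k (poly (v b c))).coeff i := by
      intro b
      rw [finsetSum_coeff, Finset.sum_range]
      refine sum_congr rfl fun c _ => ?_
      rw [coeff_C_mul, hg1]
    rw [sum_congr rfl fun b _ => e1 b]
    by_cases hi : i < A + D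
    · have h1 := congrFun (congrFun hv ⟨k, hk⟩) ⟨i, hi⟩
      rw [hL] at h1
      simpa using h1
    · refine sum_eq_zero fun b _ => sum_eq_zero fun c _ => ?_
      rw [coeff_eq_zero_of_natDegree_lt, mul_zero]
      refine (hQ _ _ _ _).trans_lt ?_
      have h2 : (poly (v b c)).natDegree ≤ A := natDegree_le_of_degree_le (hpdeg _).le
      omega

theorem stepanov (t A B D : ℕ) (hA : 1 ≤ A) (hAt : A ≤ t) (hAB : A * B ≤ t)
    (hp : A + t * (B - 1) < p) (hD : D * (A + D) < B * (B * A)) (hDp : D ≤ p)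
    (α β : ZMod p) (hα : α ≠ 0) (hβ : β ≠ 0) (U : Finset (ZMod p))
    (hU : ∀ u ∈ U, u ^ t = α ∧ (u - 1) ^ t = β) : U.card * D ≤ A + 2 * (t * (B - 1)) := by
  classical
  have ht : t ≠ 0 := by omega
  obtain ⟨g, hgdeg, ⟨b₀, hb₀, c₀, hc₀, hg0⟩, hgR⟩ := exists_g (p := p) A B D hD
    (fun b c => α ^ b * β ^ c) (fun b c k => PP (t * b) (t * c) k)
    (fun b c k h => PP_deg _ _ _ _)
  have hΨ : Psi t B g ≠ 0 := by
    intro h0
    exact hg0 (nonvan t A B hA hAt hAB hp g hgdeg h0 b₀ hb₀ c₀ hc₀)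
  have hdvd : ∀ u ∈ U, (X - C u) ^ D ∣ Psi t B g := by
    intro u hu
    obtain ⟨hu1, hu2⟩ := hU u hu
    have hu0 : u ≠ 0 := by
      rintro rfl
      rw [zero_pow ht] at hu1
      exact hα hu1.symm
    have hu0' : u - 1 ≠ 0 := by
      intro h0
      rw [h0, zero_pow ht] at hu2
      exact hβ hu2.symm
    have hroot : ∀ k < D, (derivative^[k] (Psi t B g)).IsRoot u := by
      intro k hk
      have h1 : (X * (X - 1)) ^ k * derivative^[k] (Psi t B g) =
          ∑ b ∈ range B, ∑ c ∈ range B,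
            X ^ (t * b) * (X - 1) ^ (t * c) * PP (t * b) (t * c) k (g b c) := by
        unfold Psi
        rw [iterate_derivative_sum, mul_sum]
        refine sum_congr rfl fun b _ => ?_
        rw [iterate_derivative_sum, mul_sum]
        exact sum_congr rfl fun c _ => PP_main _ _ _ _
      have h2 := congrArg (eval u) h1
      rw [eval_mul, eval_finsetSum] at h2
      have h3 : ∑ b ∈ range B, eval u (∑ c ∈ range B,
            X ^ (t * b) * (X - 1) ^ (t * c) * PP (t * b) (t * c) k (g b c)) =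
          eval u (∑ b ∈ range B, ∑ c ∈ range B,
            C (α ^ b * β ^ c) * PP (t * b) (t * c) k (g b c)) := by
        rw [eval_finsetSum]
        refine sum_congr rfl fun b _ => ?_
        rw [eval_finsetSum, eval_finsetSum]
        refine sum_congr rfl fun c _ => ?_
        rw [eval_mul, eval_mul, eval_mul, eval_pow, eval_pow, eval_X, eval_sub, eval_X, eval_one,
          eval_C, pow_mul, pow_mul, hu1, hu2]
      rw [h3, hgR k hk, eval_zero] at h2
      rcases mul_eq_zero.1 h2 with h4 | h4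
      · exfalso
        rw [eval_pow, eval_mul, eval_X, eval_sub, eval_X, eval_one] at h4
        exact pow_ne_zero k (mul_ne_zero hu0 hu0') h4
      · exact h4
    rcases Nat.eq_zero_or_pos D with h0 | h0
    · rw [h0, pow_zero]
      exact one_dvd _
    · have h1 : D - 1 < (Psi t B g).rootMultiplicity u := by
        refine lt_rootMultiplicity_of_isRoot_iterate_derivative_of_mem_nonZeroDivisors' hΨ
          (fun m hm => hroot m (by omega)) (fun m hm hm0 => ?_)
        rw [mem_nonZeroDivisors_iff_ne_zero, ne_eq, ZMod.natCast_eq_zero_iff]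
        intro h2
        have := Nat.le_of_dvd (by omega) h2
        omega
      exact (pow_dvd_pow _ (by omega)).trans (pow_rootMultiplicity_dvd _ _)
  have hprod : (∏ u ∈ U, (X - C u) ^ D) ∣ Psi t B g := by
    refine Finset.prod_dvd_of_coprime (fun a _ b _ hab => ?_) hdvd
    refine IsCoprime.pow ?_
    exact isCoprime_X_sub_C_of_isUnit_sub (sub_ne_zero.2 hab).isUnit
  have h1 := natDegree_le_of_dvd hprod hΨ
  rw [natDegree_prod_of_monic _ _ fun u _ => (monic_X_sub_C u).pow D] at h1
  have h2 : ∑ u ∈ U, ((X - C u) ^ D).natDegree = U.card * D := by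
    rw [sum_congr rfl (fun u _ => by rw [natDegree_pow, natDegree_X_sub_C, mul_one]), sum_const,
      smul_eq_mul]
  rw [h2] at h1
  refine h1.trans ?_
  unfold Psi
  refine natDegree_sum_le_of_forall_le _ _ fun b hb => ?_
  refine natDegree_sum_le_of_forall_le _ _ fun c hc => ?_
  rw [mem_range] at hb hc
  have hX1 : (X - 1 : (ZMod p)[X]).natDegree ≤ 1 := by
    have : (X - 1 : (ZMod p)[X]) = X - C 1 := by simp
    rw [this]
    exact natDegree_X_sub_C_le 1
  have e1 : (X ^ (t * b) : (ZMod p)[X]).natDegree ≤ t * (B - 1) := by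
    rw [natDegree_X_pow]
    exact Nat.mul_le_mul_left t (by omega)
  have e2 : ((X - 1) ^ (t * c) : (ZMod p)[X]).natDegree ≤ t * (B - 1) := by
    refine natDegree_pow_le.trans ?_
    calc t * c * (X - 1 : (ZMod p)[X]).natDegree ≤ t * c * 1 := Nat.mul_le_mul_left _ hX1
      _ ≤ t * (B - 1) := by rw [mul_one]; exact Nat.mul_le_mul_left t (by omega)
  have e3 : (g b c).natDegree ≤ A := natDegree_le_of_degree_le (hgdeg b c).le
  have e4 := natDegree_mul_le (p := (X ^ (t * b) : (ZMod p)[X])) (q := (X - 1) ^ (t * c) * g b c)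
  have e5 := natDegree_mul_le (p := ((X - 1) ^ (t * c) : (ZMod p)[X])) (q := g b c)
  omega

/-- the lemma of Heath-Brown and Konyagin -/
theorem hbk (t : ℕ) (ht : 1 ≤ t) (htp : t ^ 4 < p ^ 3)
    (α β : ZMod p) (hα : α ≠ 0) (hβ : β ≠ 0) (U : Finset (ZMod p))
    (hU : ∀ u ∈ U, u ^ t = α ∧ (u - 1) ^ t = β) : U.card ^ 3 ≤ 308 * t ^ 2 := by
  classical
  by_cases h8 : t < 8
  · have h1 : U.card ≤ t := by
      have h2 : U ⊆ (nthRoots t α).toFinset := by
        intro u hu
        rw [Multiset.mem_toFinset, mem_nthRoots (by omega)]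
        exact (hU u hu).1
      exact (card_le_card h2).trans ((Multiset.toFinset_card_le _).trans (card_nthRoots t α))
    calc U.card ^ 3 ≤ t ^ 3 := Nat.pow_le_pow_left h1 3
      _ = t * t ^ 2 := by ring
      _ ≤ 308 * t ^ 2 := Nat.mul_le_mul_right _ (by omega)
  · obtain ⟨s, hs1, hs2⟩ : ∃ s, s ^ 3 ≤ t ∧ t < (s + 1) ^ 3 := by
      have hex : ∃ n, t < (n + 1) ^ 3 := ⟨t, by nlinarith [Nat.zero_le (t ^ 3), Nat.zero_le (t ^ 2)]⟩
      refine ⟨Nat.find hex, ?_, Nat.find_spec hex⟩
      rcases Nat.eq_zero_or_pos (Nat.find hex) with h0 | h0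
      · rw [h0]
        omega
      · have h1 := Nat.find_min hex (Nat.sub_lt h0 one_pos)
        have h2 : Nat.find hex - 1 + 1 = Nat.find hex := by omega
        rw [h2] at h1
        omega
    have hs : 2 ≤ s := by
      by_contra hcon
      have h1 : s + 1 ≤ 2 := by omega
      have h2 := Nat.pow_le_pow_left h1 3
      omega
    have hs2t : s ^ 2 ≤ t := by
      refine le_trans ?_ hs1
      exact Nat.pow_le_pow_right (by omega) (by omega)
    have hts : t * s < p := by
      have h1 : (t * s) ^ 3 < p ^ 3 := by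
        calc (t * s) ^ 3 = t ^ 3 * s ^ 3 := by ring
          _ ≤ t ^ 3 * t := Nat.mul_le_mul_left _ hs1
          _ = t ^ 4 := by ring
          _ < _ := htp
      exact lt_of_pow_lt_pow_left₀ 3 (Nat.zero_le _) h1
    have hAB : s ^ 2 * s ≤ t := by
      calc s ^ 2 * s = s ^ 3 := by ring
        _ ≤ t := hs1
    have hts' : t * s = t * (s - 1) + t := by
      obtain ⟨r, rfl⟩ : ∃ r, s = r + 1 := ⟨s - 1, by omega⟩
      rw [Nat.add_sub_cancel]
      ring
    have hD2 : 2 * (s ^ 2 / 2) ≤ s ^ 2 := Nat.mul_div_le _ _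
    have hD2' : s ^ 2 ≤ 2 * (s ^ 2 / 2) + 1 := by omega
    have hD3 : 4 * s ^ 2 ≤ 9 * (s ^ 2 / 2) := by
      rcases Nat.lt_or_ge s 3 with h3 | h3
      · have : s = 2 := by omega
        subst this
        norm_num
      · have : 9 ≤ s ^ 2 := by nlinarith
        omega
    set D := s ^ 2 / 2 with hDdef
    have hsp : 0 < s ^ 2 := by positivity
    have key := stepanov (p := p) t (s ^ 2) s D (by omega) hs2t hAB (by omega) (by
      have h1 : 4 * (D * (s ^ 2 + D)) < 4 * (s * (s * s ^ 2)) := by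
        have e1 : 4 * (D * (s ^ 2 + D)) = (2 * D) * (2 * s ^ 2 + 2 * D) := by ring
        have e2 : (2 * D) * (2 * s ^ 2 + 2 * D) ≤ s ^ 2 * (2 * s ^ 2 + s ^ 2) :=
          Nat.mul_le_mul hD2 (by omega)
        have e3 : 4 * (s * (s * s ^ 2)) = s ^ 2 * (2 * s ^ 2 + s ^ 2) + s ^ 2 * s ^ 2 := by ring
        have e4 : 0 < s ^ 2 * s ^ 2 := by positivity
        omega
      omega) (by
      have h1 : t ≤ t * s := Nat.le_mul_of_pos_right _ (by omega)
      omega) α β hα hβ U hU
    have k1 : U.card * (4 * s ^ 2) ≤ 9 * (U.card * D) := by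
      calc U.card * (4 * s ^ 2) ≤ U.card * (9 * D) := Nat.mul_le_mul_left _ hD3
        _ = _ := by ring
    have k2 : U.card * (4 * s ^ 2) ≤ 18 * (t * s) := by omega
    have k3 : 2 * (U.card * s) ≤ 9 * t := by
      have h1 : (2 * s) * (2 * (U.card * s)) ≤ (2 * s) * (9 * t) := by
        calc (2 * s) * (2 * (U.card * s)) = U.card * (4 * s ^ 2) := by ring
          _ ≤ 18 * (t * s) := k2
          _ = _ := by ring
      exact Nat.le_of_mul_le_mul_left h1 (by omega)
    have k4 : 8 * (U.card ^ 3 * s ^ 3) ≤ 729 * t ^ 3 := by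
      calc 8 * (U.card ^ 3 * s ^ 3) = (2 * (U.card * s)) ^ 3 := by ring
        _ ≤ (9 * t) ^ 3 := Nat.pow_le_pow_left k3 3
        _ = _ := by ring
    have k5 : 8 * t ≤ 27 * s ^ 3 := by
      have h1 : 2 * (s + 1) ≤ 3 * s := by omega
      have h2 := Nat.pow_le_pow_left h1 3
      have h3 : (2 * (s + 1)) ^ 3 = 8 * (s + 1) ^ 3 := by ring
      have h4 : (3 * s) ^ 3 = 27 * s ^ 3 := by ring
      omega
    have k6 : t * (64 * U.card ^ 3) ≤ t * (19683 * t ^ 2) := by
      calc t * (64 * U.card ^ 3) = 8 * U.card ^ 3 * (8 * t) := by ring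
        _ ≤ 8 * U.card ^ 3 * (27 * s ^ 3) := Nat.mul_le_mul_left _ k5
        _ = 27 * (8 * (U.card ^ 3 * s ^ 3)) := by ring
        _ ≤ 27 * (729 * t ^ 3) := Nat.mul_le_mul_left _ k4
        _ = _ := by ring
    have k7 := Nat.le_of_mul_le_mul_left k6 (by omega)
    omega

end Pool.Agent.H435R3.HBK
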